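import Mathlib

/-! Rooks against a king on the board `ℤ^d`. -/

namespace Pool.Agent.MP_6bef34_co.H60

variable {d : ℕ}

/-- a rook on `a` reaches `b`: the squares differ in exactly one coordinate `i`, and no occupied
square lies strictly between them on that coordinate line -/
def Reach (occ : Finset (Fin d → ℤ)) (a b : Fin d → ℤ) : Prop :=
  ∃ i, a i ≠ b i ∧ (∀ j, j ≠ i → a j = b j) ∧
    ∀ c ∈ occ, (∀ j, j ≠ i → c j = a j) → ¬ (min (a i) (b i) < c i ∧ c i < max (a i) (b i))

/-- the king on `k` is in check from the rooks `R` -/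
def InCheck (k : Fin d → ℤ) (R : Finset (Fin d → ℤ)) : Prop :=
  ∃ r ∈ R, Reach (insert k R) r k

/-- a move of White: the king is not in check and one rook goes to an empty square it reaches -/
def WhiteMove (k : Fin d → ℤ) (R R' : Finset (Fin d → ℤ)) : Prop :=
  ¬ InCheck k R ∧ ∃ a ∈ R, ∃ b, b ∉ R ∧ b ≠ k ∧ Reach (insert k R) a b ∧ R' = insert b (R.erase a)

/-- a legal move of the king from `k` to `k'`; a rook on `k'` is captured -/
def KingMove (k : Fin d → ℤ) (R : Finset (Fin d → ℤ)) (k' : Fin d → ℤ) : Prop :=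
  k' ≠ k ∧ (∀ i, |k' i - k i| ≤ 1) ∧ ¬ InCheck k' (R.erase k')

/-- the two layers `ℤ^4 × {0,1} × {0}^(d-5)` -/
def Slab (x : Fin d → ℤ) : Prop :=
  ∀ i : Fin d, (i.val = 4 → x i = 0 ∨ x i = 1) ∧ (4 < i.val → x i = 0)

end Pool.Agent.MP_6bef34_co.H60
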