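import Mathlib

/-!
A planar game: the devil drops one token per turn, the king steps to a neighbouring cell of the
half plane `0 ≤ x` that holds at most one token. The king is never trapped.
-/

namespace Pool.Agent.MP_6bef34_co.H60

open Finset

/-- cells of the plane -/
abbrev Cell : Type := ℤ × ℤ

/-- two different cells at Chebyshev distance one -/
def Adj (b c : Cell) : Prop := c ≠ b ∧ |c.1 - b.1| ≤ 1 ∧ |c.2 - b.2| ≤ 1

/-- the devil, to move, traps the king within `n` turns -/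
def Trap : ℕ → Cell → Multiset Cell → Prop
  | 0, _, _ => False
  | n + 1, b, T => ∃ z, ∀ c, Adj b c → 0 ≤ c.1 → (z ::ₘ T).count c ≤ 1 → Trap n c (z ::ₘ T)

theorem Trap.succ : ∀ {n : ℕ} {b : Cell} {T : Multiset Cell}, Trap n b T → Trap (n + 1) b T
  | 0, _, _, h => h.elim
  | _ + 1, _, _, ⟨z, hz⟩ => ⟨z, fun c h1 h2 h3 => (hz c h1 h2 h3).succ⟩

theorem Trap.mono {n m : ℕ} {b : Cell} {T : Multiset Cell} (h : Trap n b T) (hm : n ≤ m) :
    Trap m b T := by
  induction hm with
  | refl => exact h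
  | step _ ih => exact ih.succ

/-- quarter turn to the right -/
def rt (u : Cell) : Cell := (u.2, -u.1)

/-- quarter turn to the left -/
def lt (u : Cell) : Cell := (-u.2, u.1)

/-- the four directions -/
def dirs : Finset Cell := {(0, 1), (1, 0), (0, -1), (-1, 0)}

/-- the wall: the half plane `x < 0` and the dead cells -/
def Wall (De : Finset Cell) (c : Cell) : Prop := c.1 < 0 ∨ c ∈ De

instance (De : Finset Cell) : DecidablePred (Wall De) := fun c => by
  unfold Wall
  infer_instance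

theorem Wall.mono {De De' : Finset Cell} {c : Cell} (h : Wall De c) (hs : De ⊆ De') :
    Wall De' c := h.imp id fun h => hs h

/-- weighted number of free sides of a dead cell -/
def side (De : Finset Cell) (d : Cell) : ℤ :=
  ∑ u ∈ dirs, if Wall De (d + rt u) then 0 else 1 - u.2

/-- weighted perimeter of the wall -/
def per (De : Finset Cell) : ℤ := ∑ d ∈ De, side De d

theorem side_eq (De : Finset Cell) (d : Cell) : side De d =
    (if Wall De (d + (0, -1)) then 0 else 1) + (if Wall De (d + (-1, 0)) then 0 else 2) +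
      (if Wall De (d + (0, 1)) then 0 else 1) := by
  rw [side, dirs, sum_insert (by decide), sum_insert (by decide), sum_insert (by decide),
    sum_singleton]
  simp [rt, add_assoc]

theorem wall_insert {De : Finset Cell} {c x : Cell} : Wall (insert c De) x ↔ x = c ∨ Wall De x := by
  simp only [Wall, mem_insert]
  tauto

theorem ite_insert {De : Finset Cell} {c : Cell} (hc : ¬ Wall De c) (d u : Cell) (a : ℤ) :
    (if Wall (insert c De) (d + u) then 0 else a) =
      (if Wall De (d + u) then 0 else a) - if d = c - u then a else 0 := by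
  by_cases h : d = c - u
  · subst h
    simp [wall_insert, hc]
  · have : d + u ≠ c := fun e => h (by rw [← e]; simp)
    simp [wall_insert, h, this]

theorem per_insert {De : Finset Cell} {c u : Cell} (hc : ¬ Wall De c) (hu : u ∈ dirs)
    (hw : Wall De (c + u)) : per (insert c De) ≤ per De + 2 := by
  have hc1 : c ∉ De := fun h => hc (Or.inr h)
  have hc0 : 0 ≤ c.1 := not_lt.1 fun h => hc (Or.inl h)
  have h1 : ∀ d, side (insert c De) d = side De d - (if d = c - (0, -1) then 1 else 0) -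
      (if d = c - (-1, 0) then 2 else 0) - (if d = c - (0, 1) then 1 else 0) := fun d => by
    rw [side_eq, side_eq, ite_insert hc, ite_insert hc, ite_insert hc]
    ring
  have e1 : c - (0, -1) = c + (0, 1) := by ext <;> simp
  have e2 : c - (-1, 0) = c + (1, 0) := by ext <;> simp
  have e3 : c - (0, 1) = c + (0, -1) := by ext <;> simp [sub_eq_add_neg]
  have n1 : c ≠ c + (0, 1) := by simp
  have n2 : c ≠ c + (1, 0) := by simp
  have n3 : c ≠ c + (0, -1) := by simp
  have w1 : Wall De (c + (0, 1)) ↔ c + (0, 1) ∈ De := by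
    simp only [Wall, Prod.fst_add, add_zero, or_iff_right_iff_imp]
    omega
  have w2 : Wall De (c + (1, 0)) ↔ c + (1, 0) ∈ De := by
    simp only [Wall, Prod.fst_add, or_iff_right_iff_imp]
    omega
  have w3 : Wall De (c + (0, -1)) ↔ c + (0, -1) ∈ De := by
    simp only [Wall, Prod.fst_add, add_zero, or_iff_right_iff_imp]
    omega
  rw [per, sum_insert hc1]
  simp only [h1, sum_sub_distrib, sum_ite_eq', e1, e2, e3, if_neg n1, if_neg n2, if_neg n3]
  rw [side_eq, ← per]
  simp only [← w1, ← w2, ← w3]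
  simp only [dirs, mem_insert, mem_singleton] at hu
  rcases hu with rfl | rfl | rfl | rfl <;> simp only [hw, if_true] <;> split_ifs <;> omega

/-- bookkeeping of the explored part of the game tree -/
structure Cfg (N : ℕ) (Al De : Finset Cell) (Z : Multiset Cell) : Prop where
  card : Z.card ≤ Al.card
  free : ∀ b ∈ Al, ¬ Wall De b
  node : ∀ b ∈ Al, ∃ (n : ℕ) (T : Multiset Cell), T ≤ Z ∧ |b.1| + n ≤ N ∧ |b.2| + n ≤ N ∧
    ∀ c, Adj b c → 0 ≤ c.1 → T.count c ≤ 1 → Trap n c T
  dead : ∀ d ∈ De, 2 ≤ Z.count d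
  per : per De ≤ 2 * De.card

theorem sum_count_le (s : Finset Cell) (Z : Multiset Cell) : ∑ d ∈ s, Z.count d ≤ Z.card := by
  induction Z using Multiset.induction_on with
  | empty => simp
  | cons a Z ih =>
    simp only [Multiset.count_cons, sum_add_distrib, sum_ite_eq', Multiset.card_cons]
    split_ifs <;> omega

theorem Cfg.per_le {N : ℕ} {Al De : Finset Cell} {Z : Multiset Cell} (h : Cfg N Al De Z) :
    H60.per De ≤ Al.card := by
  have h1 : De.card * 2 ≤ ∑ d ∈ De, Z.count d := by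
    simpa using card_nsmul_le_sum De (fun d => Z.count d) 2 h.dead
  have h2 := sum_count_le De Z
  have h3 := h.card
  have h4 := h.per
  omega

/-- every cell next to an explored cell and to the wall can be decided -/
theorem Cfg.decide {N : ℕ} {Al De : Finset Cell} {Z : Multiset Cell} (h : Cfg N Al De Z)
    {b c u : Cell} (hb : b ∈ Al) (hbc : Adj b c) (hu : u ∈ dirs) (hw : Wall De (c + u)) :
    c ∈ Al ∨ (c ∉ Al ∧ ∃ Z', Cfg N (insert c Al) De Z') ∨
      ∃ De', De ⊆ De' ∧ Wall De' c ∧ Cfg N Al De' Z := by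
  by_cases h1 : c ∈ Al
  · exact Or.inl h1
  by_cases h2 : Wall De c
  · exact Or.inr (Or.inr ⟨De, Subset.refl _, h2, h⟩)
  have hc0 : 0 ≤ c.1 := not_lt.1 fun h => h2 (Or.inl h)
  obtain ⟨n, T, hT, hn1, hn2, hn⟩ := h.node b hb
  by_cases h3 : T.count c ≤ 1
  · have h4 := hn c hbc hc0 h3
    rcases n with _ | n
    · exact h4.elim
    obtain ⟨z, hz⟩ := h4
    refine Or.inr (Or.inl ⟨h1, z ::ₘ Z, ?_, ?_, ?_, ?_, h.per⟩)
    · rw [Multiset.card_cons, card_insert_of_notMem h1]
      exact Nat.succ_le_succ h.card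
    · intro x hx
      rcases mem_insert.1 hx with rfl | hx
      · exact h2
      · exact h.free x hx
    · intro x hx
      rcases mem_insert.1 hx with rfl | hx
      · refine ⟨n, z ::ₘ T, Multiset.cons_le_cons _ hT, ?_, ?_, hz⟩
        · have := hbc.2.1
          push_cast at hn1
          rw [abs_le] at this
          rcases abs_cases b.1 with a | a <;> rcases abs_cases x.1 with a' | a' <;> omega
        · have := hbc.2.2
          push_cast at hn2
          rw [abs_le] at this
          rcases abs_cases b.2 with a | a <;> rcases abs_cases x.2 with a' | a' <;> omega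
      · obtain ⟨m, S, a1, a2⟩ := h.node x hx
        exact ⟨m, S, a1.trans (Multiset.le_cons_self _ _), a2⟩
    · exact fun d hd => (h.dead d hd).trans (Multiset.count_le_count_cons _ _ _)
  · refine Or.inr (Or.inr ⟨insert c De, subset_insert _ _, Or.inr (mem_insert_self _ _), h.card,
      ?_, h.node, ?_, ?_⟩)
    · intro x hx hx'
      rcases wall_insert.1 hx' with rfl | hx'
      · exact h1 hx
      · exact h.free x hx hx'
    · intro d hd
      rcases mem_insert.1 hd with rfl | hd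
      · have := Multiset.count_le_of_le d hT
        omega
      · exact h.dead d hd
    · have a1 := per_insert h2 hu hw
      have a2 := h.per
      rw [card_insert_of_notMem fun h => h2 (Or.inr h)]
      push_cast
      omega

/-- a directed side: wall cell on the left, direction -/
abbrev Edge : Type := Cell × Cell

/-- the side has the wall on its left and an explored cell on its right -/
def Ok (Al De : Finset Cell) (e : Edge) : Prop := e.2 ∈ dirs ∧ Wall De e.1 ∧ e.1 + rt e.2 ∈ Al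

/-- the next side along the wall -/
def Step (Al De : Finset Cell) (e f : Edge) : Prop :=
  (e.1 + e.2 ∈ Al ∧ f = (e.1, lt e.2)) ∨
  (Wall De (e.1 + e.2) ∧ e.1 + e.2 + rt e.2 ∈ Al ∧ f = (e.1 + e.2, e.2)) ∨
  (Wall De (e.1 + e.2) ∧ Wall De (e.1 + e.2 + rt e.2) ∧ f = (e.1 + e.2 + rt e.2, rt e.2))

theorem Ok.mono {Al De Al' De' : Finset Cell} {e : Edge} (h : Ok Al De e) (h1 : Al ⊆ Al')
    (h2 : De ⊆ De') : Ok Al' De' e := ⟨h.1, h.2.1.mono h2, h1 h.2.2⟩

theorem Step.mono {Al De Al' De' : Finset Cell} {e f : Edge} (h : Step Al De e f) (h1 : Al ⊆ Al')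
    (h2 : De ⊆ De') : Step Al' De' e f := by
  rcases h with h | h | h
  · exact Or.inl ⟨h1 h.1, h.2⟩
  · exact Or.inr (Or.inl ⟨h.1.mono h2, h1 h.2.1, h.2.2⟩)
  · exact Or.inr (Or.inr ⟨h.1.mono h2, h.2.1.mono h2, h.2.2⟩)

theorem rt_lt (u : Cell) : rt (lt u) = u := by simp [rt, lt]

theorem lt_rt (u : Cell) : lt (rt u) = u := by simp [rt, lt]

theorem rt_rt (u : Cell) : rt (rt u) = -u := rfl

theorem lt_eq (u : Cell) : lt u = -rt u := by simp [rt, lt]

theorem rt_mem {u : Cell} (h : u ∈ dirs) : rt u ∈ dirs := by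
  revert u
  decide

theorem lt_mem {u : Cell} (h : u ∈ dirs) : lt u ∈ dirs := by
  revert u
  decide

theorem neg_mem {u : Cell} (h : u ∈ dirs) : -u ∈ dirs := by
  revert u
  decide

theorem Step.ok {Al De : Finset Cell} {e f : Edge} (h : Step Al De e f) (he : Ok Al De e) :
    Ok Al De f := by
  rcases h with ⟨h, rfl⟩ | ⟨h1, h2, rfl⟩ | ⟨h1, h2, rfl⟩
  · exact ⟨lt_mem he.1, he.2.1, by rwa [rt_lt]⟩
  · exact ⟨he.1, h1, h2⟩
  · refine ⟨rt_mem he.1, h2, ?_⟩
    have : e.1 + e.2 + rt e.2 + rt (rt e.2) = e.1 + rt e.2 := by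
      rw [rt_rt]
      abel
    rw [this]
    exact he.2.2

/-- the side before `f`, read off from the two cells behind it -/
theorem Step.back {Al De : Finset Cell} {e f : Edge} (h : Step Al De e f) (he : Ok Al De e) :
    (f.1 - f.2 ∈ Al ∧ e = (f.1, rt f.2)) ∨
    (Wall De (f.1 - f.2) ∧ f.1 - f.2 + rt f.2 ∈ Al ∧ e = (f.1 - f.2, f.2)) ∨
    (Wall De (f.1 - f.2) ∧ Wall De (f.1 - f.2 + rt f.2) ∧ e = (f.1 - f.2 + rt f.2, lt f.2)) := by
  rcases h with ⟨h, rfl⟩ | ⟨h1, h2, rfl⟩ | ⟨h1, h2, rfl⟩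
  · refine Or.inl ⟨?_, by rw [rt_lt]⟩
    rw [lt_eq, sub_neg_eq_add]
    exact he.2.2
  · refine Or.inr (Or.inl ?_)
    simp only [add_sub_cancel_right]
    exact ⟨he.2.1, he.2.2, trivial⟩
  · refine Or.inr (Or.inr ?_)
    simp only [add_sub_cancel_right, rt_rt, lt_rt, add_neg_cancel_right]
    exact ⟨h1, he.2.1, trivial⟩

theorem Step.inj {Al De : Finset Cell} (hf : ∀ b ∈ Al, ¬ Wall De b) {e e' f : Edge}
    (h : Step Al De e f) (he : Ok Al De e) (h' : Step Al De e' f) (he' : Ok Al De e') :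
    e = e' := by
  rcases h.back he with a | a | a <;> rcases h'.back he' with b | b | b
  · exact a.2.trans b.2.symm
  · exact absurd b.1 (hf _ a.1)
  · exact absurd b.1 (hf _ a.1)
  · exact absurd a.1 (hf _ b.1)
  · exact a.2.2.trans b.2.2.symm
  · exact absurd b.2.1 (hf _ a.2.1)
  · exact absurd a.1 (hf _ b.1)
  · exact absurd a.2.1 (hf _ b.2.1)
  · exact a.2.2.trans b.2.2.symm

/-- twice the height of the starting point of a side -/
def tl (e : Edge) : ℤ := 2 * e.1.2 - e.2.1 - e.2.2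

theorem Step.tl {Al De : Finset Cell} {e f : Edge} (h : Step Al De e f) :
    tl f = tl e + 2 * e.2.2 := by
  rcases h with ⟨-, rfl⟩ | ⟨-, -, rfl⟩ | ⟨-, -, rfl⟩ <;> simp only [H60.tl, rt, lt, Prod.snd_add] <;>
    ring

/-- one more step along the wall -/
theorem Cfg.next {N : ℕ} {Al De : Finset Cell} {Z : Multiset Cell} (h : Cfg N Al De Z) {e : Edge}
    (he : Ok Al De e) : ∃ (Al' De' : Finset Cell) (Z' : Multiset Cell) (f : Edge),
      Cfg N Al' De' Z' ∧ De ⊆ De' ∧ Step Al' De' e f ∧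
      (Al' = Al ∨ (f.1 + rt f.2 ∉ Al ∧ Al' = insert (f.1 + rt f.2) Al ∧ f.2 ≠ rt e.2)) := by
  obtain ⟨a, u⟩ := e
  obtain ⟨hu, hw, hb⟩ := he
  simp only at hu hw hb
  have a1 : Adj (a + rt u) (a + u) := by
    simp only [dirs, mem_insert, mem_singleton] at hu
    rcases hu with rfl | rfl | rfl | rfl <;> simp [Adj, rt]
  have a2 : Adj (a + rt u) (a + u + rt u) := by
    simp only [dirs, mem_insert, mem_singleton] at hu
    rcases hu with rfl | rfl | rfl | rfl <;> simp [Adj, rt]
  have a3 : lt u ≠ rt u := (by decide : ∀ v ∈ dirs, lt v ≠ rt v) u hu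
  have a4 : u ≠ rt u := (by decide : ∀ v ∈ dirs, v ≠ rt v) u hu
  rcases h.decide hb a1 (neg_mem hu) (by simpa using hw) with h1 | ⟨h1, Z', h2⟩ | ⟨De', h1, h2, h3⟩
  · exact ⟨Al, De, Z, _, h, Subset.refl _, Or.inl ⟨h1, rfl⟩, Or.inl rfl⟩
  · refine ⟨_, De, Z', _, h2, Subset.refl _, Or.inl ⟨mem_insert_self _ _, rfl⟩, Or.inr ?_⟩
    simp only [rt_lt]
    exact ⟨h1, trivial, a3⟩
  · rcases h3.decide hb a2 (neg_mem (rt_mem hu)) (by simpa using h2) with
      h4 | ⟨h4, Z', h5⟩ | ⟨De'', h4, h5, h6⟩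
    · exact ⟨Al, De', Z, _, h3, h1, Or.inr (Or.inl ⟨h2, h4, rfl⟩), Or.inl rfl⟩
    · exact ⟨_, De', Z', _, h5, h1, Or.inr (Or.inl ⟨h2, mem_insert_self _ _, rfl⟩),
        Or.inr ⟨h4, rfl, a4⟩⟩
    · exact ⟨Al, De'', Z, _, h6, h1.trans h4, Or.inr (Or.inr ⟨h2.mono h4, h5, rfl⟩), Or.inl rfl⟩

theorem sum_le_per {Al De : Finset Cell} (hf : ∀ b ∈ Al, ¬ Wall De b) {O : Finset Edge}
    (hO : ∀ e ∈ O, Ok Al De e) : ∑ e ∈ O, (1 - e.2.2) ≤ per De := by
  have h1 : per De = ∑ e ∈ De ×ˢ dirs, if Wall De (e.1 + rt e.2) then 0 else 1 - e.2.2 := by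
    rw [sum_product]
    rfl
  have h2 : ∑ e ∈ O, (1 - e.2.2) = ∑ e ∈ O.filter (fun e => e.1 ∈ De),
      if Wall De (e.1 + rt e.2) then 0 else 1 - e.2.2 := by
    rw [sum_filter]
    refine sum_congr rfl fun e he => ?_
    obtain ⟨hu, hw, hb⟩ := hO e he
    have h3 := hf _ hb
    rw [if_neg h3]
    split_ifs with h4
    · rfl
    · have h5 : e.1.1 < 0 := hw.resolve_right h4
      have h6 : ¬ (e.1 + rt e.2).1 < 0 := fun h => h3 (Or.inl h)
      simp only [dirs, mem_insert, mem_singleton] at hu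
      rcases hu with hu | hu | hu | hu <;> rw [hu] at h6 ⊢ <;> simp [rt] at h6 ⊢ <;> omega
  rw [h1, h2]
  refine sum_le_sum_of_subset_of_nonneg (fun e he => ?_) fun e he _ => ?_
  · exact mem_product.2 ⟨(mem_filter.1 he).2, (hO e (mem_filter.1 he).1).1⟩
  · have hu := (mem_product.1 he).2
    simp only [dirs, mem_insert, mem_singleton] at hu
    split_ifs
    · exact le_rfl
    · rcases hu with hu | hu | hu | hu <;> rw [hu] <;> norm_num

/-- the first side -/
def e0 : Edge := ((-1, 0), (0, 1))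

/-- the state of the walk along the wall -/
structure Walk (N : ℕ) (Al De : Finset Cell) (Z : Multiset Cell) (O : Finset Edge) (e : Edge) :
    Prop where
  cfg : Cfg N Al De Z
  ok : ∀ f ∈ insert e O, Ok Al De f
  new : e ∉ O
  start : ((0, 0) : Cell) ∈ Al
  pred : ∀ f ∈ insert e O, f = e0 ∨ ∃ g ∈ O, Step Al De g f
  sum : ∑ f ∈ O, 2 * f.2.2 = tl e - tl e0
  card : Al.card ≤ O.card ∨
    (Al.card ≤ O.card + 1 ∧ e.1.1 = -1 ∧ 0 ≤ e.1.2 ∧ e.2 = (0, 1))

theorem Walk.next {N : ℕ} {Al De : Finset Cell} {Z : Multiset Cell} {O : Finset Edge} {e : Edge}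
    (h : Walk N Al De Z O e) : ∃ Al' De' Z' f, Walk N Al' De' Z' (insert e O) f := by
  have he := h.ok e (mem_insert_self _ _)
  obtain ⟨Al', De', Z', f, c1, c2, c3, c4⟩ := h.cfg.next he
  have hA : Al ⊆ Al' := by
    rcases c4 with rfl | ⟨-, rfl, -⟩
    · exact Subset.refl _
    · exact subset_insert _ _
  have hok : ∀ g ∈ insert e O, Ok Al' De' g := fun g hg => (h.ok g hg).mono hA c2
  have hsum : ∑ g ∈ insert e O, 2 * g.2.2 = tl f - tl e0 := by
    rw [sum_insert h.new, h.sum, c3.tl]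
    ring
  have hline : e.1.1 = -1 → e.2 = (0, 1) →
      f = (e.1 + (0, 1), (0, 1)) ∨ f.2 = rt e.2 := fun b1 b2 => by
    rcases c3 with ⟨d, -⟩ | ⟨-, -, rfl⟩ | ⟨-, -, rfl⟩
    · exact absurd (Or.inl (by simp [b1, b2])) (c1.free _ d)
    · exact Or.inl (by rw [b2])
    · exact Or.inr rfl
  have hne : f ≠ e0 := by
    rintro rfl
    rcases h.card with b | ⟨-, b1, b2, b3⟩
    · have d1 : Al' = Al := c4.resolve_right fun d => d.1 h.start
      have d2 := sum_le_per c1.free hok
      have d3 := c1.per_le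
      rw [sum_sub_distrib, sum_const, card_insert_of_notMem h.new] at d2
      rw [← mul_sum] at hsum
      rw [d1] at d3
      simp only [nsmul_eq_mul, mul_one] at d2
      push_cast at d2
      omega
    · rcases hline b1 b3 with d | d
      · have := congrArg (fun x => x.1.2) d
        simp [e0] at this
        omega
      · rw [b3] at d
        exact absurd d (by decide)
  refine ⟨Al', De', Z', f, c1, ?_, ?_, hA h.start, ?_, hsum, ?_⟩
  · intro g hg
    rcases mem_insert.1 hg with rfl | hg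
    · exact c3.ok (hok e (mem_insert_self _ _))
    · exact hok g hg
  · intro hf
    obtain ⟨g, hg, hg'⟩ := (h.pred f hf).resolve_left hne
    have := Step.inj c1.free (hg'.mono hA c2) (hok g (mem_insert_of_mem hg)) c3
      (hok e (mem_insert_self _ _))
    exact h.new (this ▸ hg)
  · intro g hg
    rcases mem_insert.1 hg with rfl | hg
    · exact Or.inr ⟨e, mem_insert_self _ _, c3⟩
    · exact (h.pred g hg).imp id fun ⟨x, hx, hx'⟩ => ⟨x, mem_insert_of_mem hx, hx'.mono hA c2⟩
  · rw [card_insert_of_notMem h.new]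
    have hc : Al'.card ≤ Al.card + 1 := by
      rcases c4 with rfl | ⟨-, rfl, -⟩
      · omega
      · exact card_insert_le _ _
    rcases h.card with b | ⟨b, b1, b2, b3⟩
    · exact Or.inl (by omega)
    · rcases hline b1 b3 with rfl | d
      · exact Or.inr ⟨by omega, by simpa using b1, by simp; omega, rfl⟩
      · have d1 : Al' = Al := c4.resolve_right fun x => x.2.2 d
        exact Or.inl (d1 ▸ b)

/-- the king is never trapped -/
theorem not_trap (n : ℕ) : ¬ Trap n (0, 0) 0 := by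
  intro h
  rcases n with _ | n
  · exact h
  obtain ⟨z, hz⟩ := h
  have h0 : Walk n {(0, 0)} ∅ {z} ∅ e0 := by
    refine ⟨⟨by simp, ?_, ?_, by simp, by simp [per]⟩, ?_, by simp, by simp, by simp, by simp, ?_⟩
    · simp [Wall]
    · intro b hb
      rw [mem_singleton.1 hb]
      exact ⟨n, z ::ₘ 0, le_rfl, by simp, by simp, hz⟩
    · intro f hf
      have : f = e0 := by simpa using hf
      subst this
      exact ⟨by decide, Or.inl (by decide), by decide⟩
    · exact Or.inr ⟨by simp, rfl, le_rfl, rfl⟩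
  have h1 : ∀ s : ℕ, ∃ Al De Z O e, Walk n Al De Z O e ∧ O.card = s := by
    intro s
    induction s with
    | zero => exact ⟨_, _, _, _, _, h0, rfl⟩
    | succ s ih =>
      obtain ⟨Al, De, Z, O, e, hw, hs⟩ := ih
      obtain ⟨Al', De', Z', f, hf⟩ := hw.next
      exact ⟨_, _, _, _, _, hf, by rw [card_insert_of_notMem hw.new, hs]⟩
  obtain ⟨Al, De, Z, O, e, hw, hs⟩ :=
    h1 (((Icc (-(n : ℤ) - 1) (n + 1) ×ˢ Icc (-(n : ℤ) - 1) (n + 1)) ×ˢ dirs).card + 1)
  have h2 : O ⊆ (Icc (-(n : ℤ) - 1) (n + 1) ×ˢ Icc (-(n : ℤ) - 1) (n + 1)) ×ˢ dirs := by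
    intro f hf
    obtain ⟨hu, -, hb⟩ := hw.ok f (mem_insert_of_mem hf)
    obtain ⟨m, T, -, a1, a2, -⟩ := hw.cfg.node _ hb
    refine mem_product.2 ⟨?_, hu⟩
    have b1 := abs_le.1 (show |(f.1 + rt f.2).1| ≤ n by omega)
    have b2 := abs_le.1 (show |(f.1 + rt f.2).2| ≤ n by omega)
    simp only [dirs, mem_insert, mem_singleton] at hu
    simp only [mem_product, mem_Icc]
    rcases hu with hu | hu | hu | hu <;> rw [hu] at b1 b2 <;> simp [rt] at b1 b2 <;> omega
  have := card_le_card h2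
  omega

/-- a position that is never lost has, after any token, a move to such a position -/
theorem escape {b : Cell} {T : Multiset Cell} (h : ∀ n, ¬ Trap n b T) (z : Cell) :
    ∃ c, Adj b c ∧ 0 ≤ c.1 ∧ (z ::ₘ T).count c ≤ 1 ∧ ∀ n, ¬ Trap n c (z ::ₘ T) := by
  by_contra hc
  push Not at hc
  choose! g hg using hc
  refine h ((Icc (b.1 - 1) (b.1 + 1) ×ˢ Icc (b.2 - 1) (b.2 + 1)).sup g + 1) ⟨z, fun c h1 h2 h3 => ?_⟩
  refine (hg c h1 (h2) h3).mono (le_sup ?_)
  have a1 := abs_le.1 h1.2.1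
  have a2 := abs_le.1 h1.2.2
  simp only [mem_product, mem_Icc]
  omega

end Pool.Agent.MP_6bef34_co.H60
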