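import Pool.Agent.MP_6bef34_co.H60.Defs
import Pool.Agent.MP_6bef34_co.H60.Token

/-! The king on `(u, v, u, v, w, 0, …)` plays the planar token game. -/

namespace Pool.Agent.MP_6bef34_co.H60

open Finset

variable {m : ℕ}

/-- the square above a cell, on level `w` -/
def emb (m : ℕ) (c : Cell) (w : ℤ) : Fin (m + 5) → ℤ := fun i =>
  if i.val = 0 ∨ i.val = 2 then c.1 else if i.val = 1 ∨ i.val = 3 then c.2
  else if i.val = 4 then w else 0

/-- first token of a rook -/
def tx (r : Fin (m + 5) → ℤ) : Cell := (r ⟨0, by omega⟩, r ⟨1, by omega⟩)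

/-- second token of a rook -/
def ty (r : Fin (m + 5) → ℤ) : Cell := (r ⟨2, by omega⟩, r ⟨3, by omega⟩)

/-- all tokens -/
def toks (R : Finset (Fin (m + 5) → ℤ)) : Multiset Cell := R.val.map tx + R.val.map ty

theorem tx_emb (c : Cell) (w : ℤ) : tx (emb m c w) = c := by simp [tx, emb]

theorem ty_emb (c : Cell) (w : ℤ) : ty (emb m c w) = c := by simp [ty, emb]

theorem emb_four (c : Cell) (w : ℤ) : emb m c w ⟨4, by omega⟩ = w := by simp [emb]

theorem slab_emb (c : Cell) {w : ℤ} (hw : w = 0 ∨ w = 1) : Slab (emb m c w) := by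
  intro i
  refine ⟨fun h => ?_, fun h => ?_⟩
  · simpa [emb, h] using hw
  · simp only [emb]
    rw [if_neg (by omega), if_neg (by omega), if_neg (by omega)]

theorem tx_eq {a b : Fin (m + 5) → ℤ} {i : Fin (m + 5)} (h : ∀ j, j ≠ i → a j = b j)
    (hi : 2 ≤ i.val) : tx a = tx b := by
  rw [tx, tx, h _ fun e => by rw [← e] at hi; simp at hi,
    h _ fun e => by rw [← e] at hi; simp at hi]

theorem ty_eq {a b : Fin (m + 5) → ℤ} {i : Fin (m + 5)} (h : ∀ j, j ≠ i → a j = b j)
    (hi : i.val < 2 ∨ 4 ≤ i.val) : ty a = ty b := by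
  rw [ty, ty, h _ fun e => by rw [← e] at hi; simp at hi,
    h _ fun e => by rw [← e] at hi; simp at hi]

theorem toks_mono {R S : Finset (Fin (m + 5) → ℤ)} (h : R ⊆ S) : toks R ≤ toks S :=
  add_le_add (Multiset.map_le_map (val_le_iff.2 h)) (Multiset.map_le_map (val_le_iff.2 h))

theorem toks_insert {R : Finset (Fin (m + 5) → ℤ)} {a : Fin (m + 5) → ℤ} (h : a ∉ R) :
    toks (insert a R) = tx a ::ₘ ty a ::ₘ toks R := by
  rw [toks, insert_val_of_notMem h, Multiset.map_cons, Multiset.map_cons, Multiset.cons_add,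
    Multiset.add_cons, toks]

/-- a move of White creates at most one token -/
theorem WhiteMove.toks {k : Fin (m + 5) → ℤ} {R R' : Finset (Fin (m + 5) → ℤ)}
    (h : WhiteMove k R R') : ∃ z, toks R' ≤ z ::ₘ toks R := by
  obtain ⟨-, a, ha, b, hb, -, ⟨i, -, hi, -⟩, rfl⟩ := h
  have h1 : H60.toks R = tx a ::ₘ ty a ::ₘ H60.toks (R.erase a) := by
    rw [← toks_insert (notMem_erase a R), insert_erase ha]
  rw [toks_insert fun h => hb (mem_of_mem_erase h), h1]
  by_cases h2 : 2 ≤ i.val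
  · refine ⟨ty b, ?_⟩
    rw [tx_eq hi h2, Multiset.cons_swap (ty b)]
    exact Multiset.cons_le_cons _ (Multiset.cons_le_cons _ (Multiset.le_cons_self _ _))
  · refine ⟨tx b, Multiset.cons_le_cons _ ?_⟩
    rw [ty_eq hi (by omega)]
    exact Multiset.le_cons_self _ _

theorem tok_of_line {r : Fin (m + 5) → ℤ} {c : Cell} {w : ℤ} {i : Fin (m + 5)}
    (h : ∀ j, j ≠ i → r j = emb m c w j) : tx r = c ∨ ty r = c := by
  by_cases h2 : 2 ≤ i.val
  · exact Or.inl ((tx_eq h h2).trans (tx_emb c w))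
  · exact Or.inr ((ty_eq h (by omega)).trans (ty_emb c w))

/-- above a cell with at most one token one of the two levels is on no rook line -/
theorem exists_level {R : Finset (Fin (m + 5) → ℤ)} {c : Cell} (h : (toks R).count c ≤ 1) :
    ∃ w : ℤ, (w = 0 ∨ w = 1) ∧ ∀ r ∈ R, ∀ i, ¬ ∀ j, j ≠ i → r j = emb m c w j := by
  by_contra hc
  push Not at hc
  obtain ⟨r, hr, i, hi⟩ := hc 0 (Or.inl rfl)
  obtain ⟨s, hs, j, hj⟩ := hc 1 (Or.inr rfl)
  have key : ∀ t ∈ R, tx t = c → ty t = c → False := fun t ht a1 a2 => by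
    have := Multiset.count_le_of_le c (toks_mono (singleton_subset_iff.2 ht))
    simp [toks, a1, a2] at this h
    omega
  by_cases e : r = s
  · subst e
    by_cases a : i.val = 4
    · exact key r hr ((tx_eq hi (by omega)).trans (tx_emb c 0))
        ((ty_eq hi (by omega)).trans (ty_emb c 0))
    by_cases b : j.val = 4
    · exact key r hr ((tx_eq hj (by omega)).trans (tx_emb c 1))
        ((ty_eq hj (by omega)).trans (ty_emb c 1))
    have a1 := hi ⟨4, by omega⟩ fun e => a (by rw [← e])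
    have a2 := hj ⟨4, by omega⟩ fun e => b (by rw [← e])
    rw [emb_four] at a1 a2
    omega
  · have h1 : ({r, s} : Finset _) ⊆ R := by
      rw [insert_subset_iff, singleton_subset_iff]
      exact ⟨hr, hs⟩
    have h2 := Multiset.count_le_of_le c (toks_mono h1)
    rw [toks_insert (by simpa using e), ← insert_empty_eq, toks_insert (notMem_empty _)] at h2
    simp only [Multiset.count_cons] at h2
    rcases tok_of_line hi with a | a <;> rcases tok_of_line hj with b | b <;>
      simp only [a, b, if_true] at h2 <;> omega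

/-- positions that are safe for ever -/
def Safe (p : (Fin (m + 5) → ℤ) × Finset (Fin (m + 5) → ℤ)) : Prop :=
  ∃ (c : Cell) (w : ℤ) (T : Multiset Cell), p.1 = emb m c w ∧ (w = 0 ∨ w = 1) ∧
    (∀ x : Cell, 0 ≤ x.1 → (toks p.2).count x ≤ T.count x) ∧ ∀ n, ¬ Trap n c T

theorem Safe.step {k : Fin (m + 5) → ℤ} {R R' : Finset (Fin (m + 5) → ℤ)} (h : Safe (k, R))
    (hw : WhiteMove k R R') : ∃ k', KingMove k R' k' ∧ Safe (k', R'.erase k') := by
  obtain ⟨c, w, T, h1, h2, h3, h4⟩ := h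
  simp only at h1 h3
  obtain ⟨z, hz⟩ := hw.toks
  obtain ⟨c', a1, a2, a3, a4⟩ := escape h4 z
  have h5 : ∀ x : Cell, 0 ≤ x.1 → (toks R').count x ≤ (z ::ₘ T).count x := fun x hx => by
    have b1 := Multiset.count_le_of_le x hz
    have b2 := h3 x hx
    rw [Multiset.count_cons] at b1 ⊢
    omega
  obtain ⟨w', b1, b2⟩ := exists_level ((h5 c' a2).trans a3)
  refine ⟨emb m c' w', ⟨fun e => a1.1 ?_, fun i => ?_, ?_⟩, c', w', z ::ₘ T, rfl, b1,
    fun x hx => (Multiset.count_le_of_le x (toks_mono (erase_subset _ _))).trans (h5 x hx), a4⟩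
  · rw [← tx_emb (m := m) c' w', e, h1, tx_emb]
  · rw [h1]
    simp only [emb]
    split_ifs
    · exact a1.2.1
    · exact a1.2.2
    · rcases h2 with rfl | rfl <;> rcases b1 with rfl | rfl <;> norm_num
    · norm_num
  · rintro ⟨r, hr, i, -, hi, -⟩
    exact b2 r (mem_of_mem_erase hr) i hi

end Pool.Agent.MP_6bef34_co.H60
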